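import Mathlib

/-! Length generating functions of subsets of a free group of finite rank. -/

namespace H749.Cog

open FreeGroup PowerSeries

variable {S : Type*} [DecidableEq S] [Finite S]

theorem sphere_finite (n : ℕ) : {g : FreeGroup S | g.norm = n}.Finite := by
  have h := (List.finite_length_eq (S × Bool) n).preimage
    (f := (FreeGroup.toWord : FreeGroup S → _)) (FreeGroup.toWord_injective.injOn)
  exact h

/-- elements of length n in s -/
noncomputable def sph (s : Set (FreeGroup S)) (n : ℕ) : Finset (FreeGroup S) :=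
  ((sphere_finite n).inter_of_right s).toFinset

theorem mem_sph {s : Set (FreeGroup S)} {n : ℕ} {g : FreeGroup S} :
    g ∈ sph s n ↔ g ∈ s ∧ g.norm = n := by
  simp [sph]

/-- generating function -/
noncomputable def gf (s : Set (FreeGroup S)) : ℤ⟦X⟧ := PowerSeries.mk fun n => ((sph s n).card : ℤ)

theorem coeff_gf (s : Set (FreeGroup S)) (n : ℕ) : coeff n (gf s) = ((sph s n).card : ℤ) := by
  simp [gf]

theorem gf_union {s t u : Set (FreeGroup S)} (hu : ∀ g, g ∈ u ↔ g ∈ s ∨ g ∈ t)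
    (hd : ∀ g, g ∈ s → g ∈ t → False) : gf u = gf s + gf t := by
  ext n
  rw [map_add, coeff_gf, coeff_gf, coeff_gf, ← Nat.cast_add, ← Finset.card_union_of_disjoint]
  · congr 2
    ext g
    simp only [Finset.mem_union, mem_sph, hu]
    tauto
  · rw [Finset.disjoint_left]
    intro g h1 h2
    exact hd g (mem_sph.1 h1).1 (mem_sph.1 h2).1

theorem gf_iUnion {ι : Type*} [Fintype ι] {u : Set (FreeGroup S)} (s : ι → Set (FreeGroup S))
    (hu : ∀ g, g ∈ u ↔ ∃ i, g ∈ s i)
    (hd : ∀ i j g, g ∈ s i → g ∈ s j → i = j) : gf u = ∑ i, gf (s i) := by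
  classical
  ext n
  rw [map_sum, coeff_gf]
  simp only [coeff_gf]
  rw [← Nat.cast_sum, ← Finset.card_biUnion]
  · congr 2
    ext g
    simp only [Finset.mem_biUnion, mem_sph, hu, Finset.mem_univ, true_and]
    constructor
    · rintro ⟨⟨i, hi⟩, hn⟩
      exact ⟨i, hi, hn⟩
    · rintro ⟨i, hi, hn⟩
      exact ⟨⟨i, hi⟩, hn⟩
  · intro i _ j _ hij
    refine Finset.disjoint_left.2 ?_
    intro g h1 h2
    exact hij (hd i j g (mem_sph.1 h1).1 (mem_sph.1 h2).1)

theorem gf_one : gf ({1} : Set (FreeGroup S)) = 1 := by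
  ext n
  rw [coeff_gf, coeff_one]
  by_cases hn : n = 0
  · subst hn
    have : sph ({1} : Set (FreeGroup S)) 0 = {1} := by
      ext g
      simp only [mem_sph, Set.mem_singleton_iff, Finset.mem_singleton]
      constructor
      · exact fun h => h.1
      · rintro rfl
        simp
    rw [this]
    simp
  · have : sph ({1} : Set (FreeGroup S)) n = ∅ := by
      ext g
      simp only [mem_sph, Set.mem_singleton_iff, Finset.notMem_empty, iff_false]
      rintro ⟨rfl, h⟩
      simp at h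
      exact hn h.symm
    rw [this]
    simp [hn]

theorem gf_empty : gf (∅ : Set (FreeGroup S)) = 0 := by
  ext n
  rw [coeff_gf]
  have : sph (∅ : Set (FreeGroup S)) n = ∅ := by
    ext g
    simp [mem_sph]
  simp [this]

theorem gf_shift {s u : Set (FreeGroup S)} (φ : FreeGroup S → FreeGroup S) (c : ℕ)
    (hmap : ∀ g ∈ s, φ g ∈ u ∧ (φ g).norm = g.norm + c)
    (hinj : ∀ g ∈ s, ∀ g' ∈ s, φ g = φ g' → g = g')
    (hsurj : ∀ k ∈ u, ∃ g ∈ s, φ g = k) : gf u = X ^ c * gf s := by
  ext n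
  rw [coeff_X_pow_mul', coeff_gf]
  split_ifs with h
  · rw [coeff_gf]
    congr 1
    symm
    apply Finset.card_nbij φ
    · intro g hg
      simp only [Finset.mem_coe, mem_sph] at hg ⊢
      obtain ⟨h1, h2⟩ := hmap g hg.1
      exact ⟨h1, by omega⟩
    · intro g hg g' hg' he
      exact hinj g (mem_sph.1 hg).1 g' (mem_sph.1 hg').1 he
    · intro k hk
      simp only [Finset.mem_coe, mem_sph] at hk
      obtain ⟨g, hg, rfl⟩ := hsurj k hk.1
      refine ⟨g, ?_, rfl⟩
      simp only [Finset.mem_coe, mem_sph]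
      have := (hmap g hg).2
      exact ⟨hg, by omega⟩
  · have : sph u n = ∅ := by
      ext k
      simp only [mem_sph, Finset.notMem_empty, iff_false]
      rintro ⟨hk, hn⟩
      obtain ⟨g, hg, rfl⟩ := hsurj k hk
      have := (hmap g hg).2
      omega
    simp [this]

theorem gf_mul {s t u : Set (FreeGroup S)}
    (hmap : ∀ h ∈ s, ∀ k ∈ t, h * k ∈ u ∧ (h * k).norm = h.norm + k.norm)
    (hinj : ∀ h ∈ s, ∀ k ∈ t, ∀ h' ∈ s, ∀ k' ∈ t, h * k = h' * k' → h = h' ∧ k = k')
    (hsurj : ∀ g ∈ u, ∃ h ∈ s, ∃ k ∈ t, h * k = g) : gf u = gf s * gf t := by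
  classical
  ext n
  rw [coeff_mul]
  simp only [coeff_gf]
  rw [← Finset.sum_congr rfl (fun p _ => by
    rw [← Nat.cast_mul, ← Finset.card_product]), ← Nat.cast_sum, ← Finset.card_sigma]
  congr 1
  symm
  apply Finset.card_nbij (fun q : (Σ _ : ℕ × ℕ, FreeGroup S × FreeGroup S) => q.2.1 * q.2.2)
  · rintro ⟨p, h, k⟩ hq
    simp only [Finset.mem_coe, Finset.mem_sigma, Finset.mem_product,
      mem_sph] at hq ⊢
    obtain ⟨h0, ⟨h1, h2⟩, h3, h4⟩ := hq
    replace h0 : p.1 + p.2 = n := Finset.HasAntidiagonal.mem_antidiagonal.1 h0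
    obtain ⟨h5, h6⟩ := hmap h h1 k h3
    exact ⟨h5, by omega⟩
  · rintro ⟨p, h, k⟩ hq ⟨p', h', k'⟩ hq' he
    simp only [Finset.mem_coe, Finset.mem_sigma, Finset.mem_product,
      mem_sph] at hq hq' he
    obtain ⟨h0, ⟨h1, h2⟩, h3, h4⟩ := hq
    obtain ⟨h0', ⟨h1', h2'⟩, h3', h4'⟩ := hq'
    obtain ⟨rfl, rfl⟩ := hinj h h1 k h3 h' h1' k' h3' he
    have : p = p' := Prod.ext (by omega) (by omega)
    subst this
    rfl
  · intro g hg
    simp only [Finset.mem_coe, mem_sph] at hg
    obtain ⟨h, hh, k, hk, rfl⟩ := hsurj g hg.1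
    refine ⟨⟨(h.norm, k.norm), h, k⟩, ?_, rfl⟩
    have := (hmap h hh k hk).2
    simp only [Finset.mem_coe, Finset.mem_sigma, Finset.mem_product,
      mem_sph]
    exact ⟨Finset.HasAntidiagonal.mem_antidiagonal.2 (by show h.norm + k.norm = n; omega), ⟨hh, trivial⟩, hk, trivial⟩

end H749.Cog
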