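import Pool.Agent.H749R4.Series

/-! One step of the integer series process. -/

namespace H749.Cog

open PowerSeries

theorem geom_inv {L : ℕ} (hL : 1 ≤ L) : ∃ w : ℤ⟦X⟧, (1 + X ^ L) * w = 1 := by
  refine ⟨invOfUnit (1 + X ^ L) 1, mul_invOfUnit _ _ ?_⟩
  simp [show L ≠ 0 by omega]

theorem child_inv {N : ℕ} {U E U' : ℤ⟦X⟧} (h : Inv N U E) (h0 : coeff 0 U' = 1) (h1 : Bd U' 1) :
    Inv (N + 1) U' (E + C (-2) * (X ^ (N + 1) * U') + C 2 * (X ^ (N + 3) * U')) := by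
  refine ⟨by have := h.hN; omega, h0, h1, ?_, ?_⟩
  · intro j hj
    have hN := h.hN
    rw [map_add, map_add, coeff_C_mul, coeff_C_mul, coeff_X_pow_mul', coeff_X_pow_mul',
      if_neg (by omega), if_neg (by omega), h.hE0 j hj]
    simp
  · have e1 := (h1.Xmul (N + 1) zero_le_one).cmul (-2)
    have e2 := (h1.Xmul (N + 3) zero_le_one).cmul 2
    refine ((h.hE.add e1).add e2).mono ?_
    have h2 : (0 : ℝ) < 2 ^ N := by positivity
    have e3 : (1 - 4 / 2 ^ N : ℝ) + |((-2 : ℤ) : ℝ)| * (1 / 2 ^ (N + 1))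
        + |((2 : ℤ) : ℝ)| * (1 / 2 ^ (N + 3)) = 1 - (11 / 4) / 2 ^ N := by
      have a1 : |((-2 : ℤ) : ℝ)| = 2 := by norm_num
      have a2 : |((2 : ℤ) : ℝ)| = 2 := by norm_num
      rw [a1, a2, pow_succ, pow_add]
      field_simp
      ring
    rw [e3]
    have e4 : (1 : ℝ) - 4 / 2 ^ (N + 1) = 1 - 2 / 2 ^ N := by
      rw [pow_succ]
      field_simp
      ring
    rw [e4]
    have : (2 : ℝ) / 2 ^ N ≤ (11 / 4) / 2 ^ N := by gcongr; norm_num
    linarith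

theorem child_rel {N : ℕ} {E U' v v' : ℤ⟦X⟧} (hv : Vd E * v = 1)
    (hv' : Vd (E + C (-2) * (X ^ (N + 1) * U') + C 2 * (X ^ (N + 3) * U')) * v' = 1) :
    (2 * X ^ (N + 3) * U' * v) * (1 - (1 - X ^ 2) * (2 * X ^ (N + 1) * U' * v'))
      = X ^ 2 * (2 * X ^ (N + 1) * U' * v') := by
  have e : Vd (E + C (-2) * (X ^ (N + 1) * U') + C 2 * (X ^ (N + 3) * U'))
      = Vd E + 2 * (1 - X ^ 2) * X ^ (N + 1) * U' := by
    have c1 : (C (-2) : ℤ⟦X⟧) = -2 := by simp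
    have c2 : (C 2 : ℤ⟦X⟧) = 2 := by simp
    rw [Vd, Vd, c1, c2]
    ring
  rw [e] at hv'
  have x3 : (X : ℤ⟦X⟧) ^ (N + 3) = X ^ 2 * X ^ (N + 1) := by ring
  rw [x3]
  linear_combination (-(2 * X ^ 2 * X ^ (N + 1) * U' * v)) * hv'
    + (2 * X ^ 2 * X ^ (N + 1) * U' * v') * hv

/-- decomposition of a node -/
theorem node_split {N : ℕ} {U E : ℤ⟦X⟧} (h : Inv N U E) :
    ∃ (b1 b2 p : ℕ) (T : ℤ⟦X⟧) (w0 w1 w2 : ℤ⟦X⟧), b1 ≤ 10204 ∧ b2 ≤ 10204 ∧ 979592 ≤ p ∧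
      p ≤ 1020408 ∧
      (1 + X ^ N) * w0 = 1 ∧ (1 + X ^ (N + 1)) * w1 = 1 ∧ (1 + X ^ (N + 2)) * w2 = 1 ∧
      coeff 0 T = p ∧ (∀ j, 1 ≤ j → |coeff j T| ≤ 21872 * 2 ^ j) ∧
      X ^ 3 * T = U - Vd E * (w0 + (b1 : ℤ⟦X⟧) * X * w1 + (b2 : ℤ⟦X⟧) * X ^ 2 * w2) := by
  have hN := h.hN
  obtain ⟨w0, hw0⟩ := geom_inv (L := N) (by omega)
  obtain ⟨w1, hw1⟩ := geom_inv (L := N + 1) (by omega)
  obtain ⟨w2, hw2⟩ := geom_inv (L := N + 2) (by omega)
  have hu : ∀ j, |coeff j U| ≤ 2 ^ j := by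
    intro j
    have := h.hU j
    rw [one_mul] at this
    exact_mod_cast this
  have hu1 := abs_le.1 (hu 1)
  have hu2 := abs_le.1 (hu 2)
  have hu3 := abs_le.1 (hu 3)
  norm_num at hu1 hu2 hu3
  obtain ⟨b1, hb1⟩ : ∃ b1 : ℕ, (b1 : ℤ) = 100 + coeff 1 U :=
    ⟨(100 + coeff 1 U).toNat, Int.toNat_of_nonneg (by linarith)⟩
  obtain ⟨b2, hb2⟩ : ∃ b2 : ℕ, (b2 : ℤ) = 100 * b1 + coeff 2 U :=
    ⟨(100 * b1 + coeff 2 U).toNat, Int.toNat_of_nonneg (by linarith)⟩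
  obtain ⟨p, hp⟩ : ∃ p : ℕ, (p : ℤ) = 100 * b2 + coeff 3 U :=
    ⟨(100 * b2 + coeff 3 U).toNat, Int.toNat_of_nonneg (by linarith)⟩
  -- the small part
  set V := Vd E with hV
  set z0 := V * w0 with hz0
  set z1 := V * w1 with hz1
  set z2 := V * w2 with hz2
  have hVb : Bd V 100 := by
    intro j
    rw [hV, Vd, map_sub, map_sub, coeff_C_mul]
    have hE := h.hE j
    have hE' : |((coeff j E : ℤ) : ℝ)| ≤ 2 ^ j := by
      refine hE.trans ?_
      have : (0 : ℝ) < 4 / 2 ^ N := by positivity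
      have h2 : (0 : ℝ) < 2 ^ j := by positivity
      nlinarith
    rcases Nat.lt_or_ge j 2 with hj | hj
    · interval_cases j
      · rw [h.hE0 0 (by norm_num)]
        simp [coeff_X]
      · rw [h.hE0 1 (by norm_num)]
        simp [coeff_X, coeff_one]
    · have e1 : coeff j (1 : ℤ⟦X⟧) = 0 := by rw [coeff_one, if_neg (by omega)]
      have e2 : coeff j (X : ℤ⟦X⟧) = 0 := by rw [coeff_X, if_neg (by omega)]
      rw [e1, e2]
      have e3 : ((0 : ℤ) - 100 * 0 - coeff j E) = - coeff j E := by ring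
      rw [e3, Int.cast_neg, abs_neg]
      have h2 : (0 : ℝ) < 2 ^ j := by positivity
      linarith
  have b0 : Bd z0 200 := by
    have := Bd.geom (z := z0) (u := V) (L := N) (by omega) (by norm_num)
      (by rw [hz0]; linear_combination V * hw0) hVb
    norm_num at this
    exact this
  have b1' : Bd z1 200 := by
    have := Bd.geom (z := z1) (u := V) (L := N + 1) (by omega) (by norm_num)
      (by rw [hz1]; linear_combination V * hw1) hVb
    norm_num at this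
    exact this
  have b2' : Bd z2 200 := by
    have := Bd.geom (z := z2) (u := V) (L := N + 2) (by omega) (by norm_num)
      (by rw [hz2]; linear_combination V * hw2) hVb
    norm_num at this
    exact this
  have hE1 : Bd E 1 := h.hE.mono (by
    have : (0 : ℝ) < 4 / 2 ^ N := by positivity
    linarith)
  set M : ℤ⟦X⟧ := U + (E + C (b1 : ℤ) * (X ^ 1 * E) + C (b2 : ℤ) * (X ^ 2 * E))
    + (X ^ N * z0 + C (b1 : ℤ) * (X ^ (N + 2) * z1) + C (b2 : ℤ) * (X ^ (N + 4) * z2)) with hM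
  have hMb : Bd M 2734 := by
    have c1 : (b1 : ℝ) ≤ 102 := by
      have : (b1 : ℤ) ≤ 102 := by linarith
      exact_mod_cast this
    have c2 : (b2 : ℝ) ≤ 10204 := by
      have : (b2 : ℤ) ≤ 10204 := by linarith
      exact_mod_cast this
    have t1 := (hE1.Xmul 1 zero_le_one).cmul (b1 : ℤ)
    have t2 := (hE1.Xmul 2 zero_le_one).cmul (b2 : ℤ)
    have t3 := b0.Xmul N (by norm_num)
    have t4 := (b1'.Xmul (N + 2) (by norm_num)).cmul (b1 : ℤ)
    have t5 := (b2'.Xmul (N + 4) (by norm_num)).cmul (b2 : ℤ)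
    refine ((h.hU.add ((hE1.add t1).add t2)).add ((t3.add t4).add t5)).mono ?_
    have a1 : |(((b1 : ℕ) : ℤ) : ℝ)| = b1 := by
      rw [Int.cast_natCast, abs_of_nonneg (Nat.cast_nonneg _)]
    have a2 : |(((b2 : ℕ) : ℤ) : ℝ)| = b2 := by
      rw [Int.cast_natCast, abs_of_nonneg (Nat.cast_nonneg _)]
    rw [a1, a2]
    have hN2 : (1024 : ℝ) ≤ 2 ^ N := by
      calc (1024 : ℝ) = 2 ^ 10 := by norm_num
        _ ≤ 2 ^ N := pow_le_pow_right₀ (by norm_num) hN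
    have d3 : (200 : ℝ) / 2 ^ N ≤ 200 / 1024 := by gcongr
    have d4 : (b1 : ℝ) * (200 / 2 ^ (N + 2)) ≤ 102 * (200 / (1024 * 4)) := by
      rw [pow_add]
      gcongr
      norm_num
    have d5 : (b2 : ℝ) * (200 / 2 ^ (N + 4)) ≤ 10204 * (200 / (1024 * 16)) := by
      rw [pow_add]
      gcongr
      norm_num
    have d1 : (b1 : ℝ) * (1 / 2 ^ 1) ≤ 102 * (1 / 2) := by
      norm_num
      linarith
    have d2 : (b2 : ℝ) * (1 / 2 ^ 2) ≤ 10204 * (1 / 4) := by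
      norm_num
      linarith
    norm_num at d1 d2 d3 d4 d5 ⊢
    linarith
  have hMj : ∀ j < 4, coeff j M = coeff j U := by
    intro j hj
    have q1 : coeff j (X ^ 1 * E) = 0 := by
      rw [coeff_X_pow_mul']
      split_ifs
      · exact h.hE0 _ (by omega)
      · rfl
    have q2 : coeff j (X ^ 2 * E) = 0 := by
      rw [coeff_X_pow_mul']
      split_ifs
      · exact h.hE0 _ (by omega)
      · rfl
    have q3 : coeff j (X ^ N * z0) = 0 := by rw [coeff_X_pow_mul', if_neg (by omega)]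
    have q4 : coeff j (X ^ (N + 2) * z1) = 0 := by rw [coeff_X_pow_mul', if_neg (by omega)]
    have q5 : coeff j (X ^ (N + 4) * z2) = 0 := by rw [coeff_X_pow_mul', if_neg (by omega)]
    rw [hM]
    simp only [map_add, coeff_C_mul]
    rw [q1, q2, q3, q4, q5, h.hE0 j hj]
    ring
  set Pl : ℤ⟦X⟧ := 1 + C ((b1 : ℤ) - 100) * X ^ 1 + C ((b2 : ℤ) - 100 * b1) * X ^ 2
    + C (-(100 * b2 : ℤ)) * X ^ 3 with hPl
  have hR : U - V * (w0 + (b1 : ℤ⟦X⟧) * X * w1 + (b2 : ℤ⟦X⟧) * X ^ 2 * w2) = M - Pl := by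
    have c1 : (C (b1 : ℤ) : ℤ⟦X⟧) = (b1 : ℤ⟦X⟧) := by simp
    have c2 : (C (b2 : ℤ) : ℤ⟦X⟧) = (b2 : ℤ⟦X⟧) := by simp
    have c3 : (C ((b1 : ℤ) - 100) : ℤ⟦X⟧) = (b1 : ℤ⟦X⟧) - 100 := by simp
    have c4 : (C ((b2 : ℤ) - 100 * b1) : ℤ⟦X⟧) = (b2 : ℤ⟦X⟧) - 100 * b1 := by simp
    have c5 : (C (-(100 * b2 : ℤ)) : ℤ⟦X⟧) = -(100 * b2) := by simp
    have c6 : (C (100 : ℤ) : ℤ⟦X⟧) = 100 := by simp
    have hVV : V = 1 - 100 * X - E := by rw [hV, Vd, c6]
    rw [hM, hPl, c1, c2, c3, c4, c5, hz0, hz1, hz2]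
    have x1 : (X : ℤ⟦X⟧) ^ (N + 2) = X ^ (N + 1) * X := by ring
    have x2 : (X : ℤ⟦X⟧) ^ (N + 4) = X ^ (N + 2) * X ^ 2 := by ring
    have g0 : V * w0 = V - X ^ N * (V * w0) := by linear_combination V * hw0
    have g1 : V * w1 = V - X ^ (N + 1) * (V * w1) := by linear_combination V * hw1
    have g2 : V * w2 = V - X ^ (N + 2) * (V * w2) := by linear_combination V * hw2
    rw [x2, x1]
    linear_combination (-1 - b1 * X - b2 * X ^ 2) * hVV - g0 - b1 * X * g1 - b2 * X ^ 2 * g2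
  refine ⟨b1, b2, p, PowerSeries.mk fun j => coeff (j + 3) (M - Pl), w0, w1, w2, ?_, ?_, ?_, ?_,
    hw0, hw1, hw2, ?_, ?_, ?_⟩
  · have : (b1 : ℤ) ≤ 10204 := by linarith
    exact_mod_cast this
  · have : (b2 : ℤ) ≤ 10204 := by linarith
    exact_mod_cast this
  · have : (979592 : ℤ) ≤ p := by linarith
    exact_mod_cast this
  · have : (p : ℤ) ≤ 1020408 := by linarith
    exact_mod_cast this
  · rw [coeff_mk, map_sub, hMj _ (by norm_num), hp, hPl]
    simp only [map_add, coeff_C_mul, coeff_X_pow, coeff_one]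
    norm_num
    ring
  · intro j hj
    rw [coeff_mk, map_sub]
    have e0 : coeff (j + 3) Pl = 0 := by
      rw [hPl]
      simp only [map_add, coeff_C_mul, coeff_X_pow, coeff_one]
      rw [if_neg (by omega), if_neg (by omega), if_neg (by omega), if_neg (by omega)]
      ring
    rw [e0, sub_zero]
    have := hMb (j + 3)
    have e1 : (2734 : ℝ) * 2 ^ (j + 3) = ((21872 * 2 ^ j : ℤ) : ℝ) := by
      push_cast
      ring
    rw [e1, ← Int.cast_abs] at this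
    exact_mod_cast this
  · rw [hR]
    ext j
    rw [coeff_X_pow_mul']
    split_ifs with hj
    · rw [coeff_mk, Nat.sub_add_cancel hj]
    · rw [map_sub, hMj _ (by omega), hPl]
      have hj' : j < 3 := by omega
      interval_cases j
      · rw [h.hU0]
        simp only [map_add, coeff_C_mul, coeff_X_pow, coeff_one]
        norm_num
      · simp only [map_add, coeff_C_mul, coeff_X_pow, coeff_one]
        norm_num
        linarith
      · simp only [map_add, coeff_C_mul, coeff_X_pow, coeff_one]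
        norm_num
        linarith

end H749.Cog
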