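import Pool.Agent.H749R4.Rec
import Pool.Agent.H749R4.Proc

/-! The infinitely generated subgroup with rational cogrowth. -/

namespace H749.Cog

open FreeGroup PowerSeries

/-- bulk nodes -/
def Node : Type := {n : ℕ × ℤ⟦X⟧ × ℤ⟦X⟧ // Inv n.1 n.2.1 n.2.2}

/-- value of a state -/
noncomputable def fval : Option Node → ℤ⟦X⟧
  | none => 0
  | some n => 2 * X ^ n.1.1 * n.1.2.1 * vi n.1.2.2

theorem sum_ite_lt_ring {Q p : ℕ} (h : p ≤ Q) (a : ℤ⟦X⟧) :
    ∑ i : Fin Q, (if (i : ℕ) < p then a else 0) = p * a := by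
  rw [Fin.sum_univ_eq_sum_range (fun i => if i < p then a else 0) Q, ← Finset.sum_filter]
  have : (Finset.range Q).filter (fun i => i < p) = Finset.range p := by
    ext i
    simp only [Finset.mem_filter, Finset.mem_range]
    omega
  rw [this]
  simp

theorem state_step {P Q : ℕ} (hP : 1020408 ≤ P) (hQ : 10204 ≤ Q) (s : Option Node) :
    ∃ (ch : Fin P → Option Node) (ℓ : Fin 3 × Fin Q → ℕ) (y : Fin P → ℤ⟦X⟧)
      (b : Fin 3 × Fin Q → ℤ⟦X⟧),
      (∀ j, 0 < ℓ j → b j * (1 + X ^ ℓ j) = 2 * X ^ ℓ j) ∧ (∀ j, ℓ j = 0 → b j = 0) ∧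
      (∀ i, y i * (1 - (1 - X ^ 2) * fval (ch i)) = X ^ 2 * fval (ch i)) ∧
      fval s = ∑ i, y i + ∑ j, b j ∧ (s ≠ none → (∃ i, ch i ≠ none) ∧ ∃ j, 0 < ℓ j) := by
  cases s with
  | none =>
    refine ⟨fun _ => none, fun _ => 0, fun _ => 0, fun _ => 0, ?_, ?_, ?_, ?_, ?_⟩
    · intro j hj
      exact absurd hj (lt_irrefl 0)
    · intro j _
      rfl
    · intro i
      simp [fval]
    · simp [fval]
    · intro h
      exact absurd rfl h
  | some n =>
    obtain ⟨⟨N, U, E⟩, hinv⟩ := n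
    dsimp only at hinv
    obtain ⟨b1, b2, p, T, w0, w1, w2, hb1, hb2, hp1, hp2, hw0, hw1, hw2, hT0, hT, hsplit⟩ :=
      node_split hinv
    have hN := hinv.hN
    have hv : Vd E * vi E = 1 := Vd_mul (hinv.hE0 0 (by norm_num))
    let U' : ℕ → ℤ⟦X⟧ := fun i => part T p i
    have hU0 : ∀ i, coeff 0 (U' i) = 1 := fun i => part_zero (by omega) hT0 i
    have hUb : ∀ i, Bd (U' i) 1 := fun i => part_bd hp1 hT0 hT i
    let E' : ℕ → ℤ⟦X⟧ := fun i =>
      E + C (-2) * (X ^ (N + 1) * U' i) + C 2 * (X ^ (N + 3) * U' i)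
    have hI : ∀ i, Inv (N + 1) (U' i) (E' i) := fun i => child_inv hinv (hU0 i) (hUb i)
    have hv' : ∀ i, Vd (E' i) * vi (E' i) = 1 := fun i => Vd_mul ((hI i).hE0 0 (by norm_num))
    let bn : Fin 3 → ℕ := ![1, b1, b2]
    let w : Fin 3 → ℤ⟦X⟧ := ![w0, w1, w2]
    have hw : ∀ a : Fin 3, (1 + X ^ (N + (a : ℕ))) * w a = 1 := by
      intro a
      fin_cases a
      · exact hw0
      · exact hw1
      · exact hw2
    have hbn : ∀ a : Fin 3, bn a ≤ Q := by
      intro a
      fin_cases a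
      · show 1 ≤ Q; omega
      · show b1 ≤ Q; omega
      · show b2 ≤ Q; omega
    refine ⟨fun i => if (i : ℕ) < p then some ⟨(N + 1, U' i, E' i), hI i⟩ else none,
      fun j => if (j.2 : ℕ) < bn j.1 then N + j.1 else 0,
      fun i => if (i : ℕ) < p then 2 * X ^ (N + 3) * U' i * vi E else 0,
      fun j => if (j.2 : ℕ) < bn j.1 then 2 * X ^ (N + (j.1 : ℕ)) * w j.1 else 0,
      ?_, ?_, ?_, ?_, ?_⟩
    · intro j hj
      by_cases h : (j.2 : ℕ) < bn j.1
      · simp only [if_pos h]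
        linear_combination 2 * X ^ (N + (j.1 : ℕ)) * hw j.1
      · simp only [if_neg h] at hj
        exact absurd hj (lt_irrefl 0)
    · intro j hj
      by_cases h : (j.2 : ℕ) < bn j.1
      · simp only [if_pos h] at hj
        omega
      · simp only [if_neg h]
    · intro i
      by_cases h : (i : ℕ) < p
      · simp only [if_pos h]
        exact child_rel hv (hv' i)
      · simp only [if_neg h, fval]
        ring
    · have s1 : ∑ i : Fin P, (if (i : ℕ) < p then 2 * X ^ (N + 3) * U' i * vi E else 0)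
          = 2 * X ^ (N + 3) * T * vi E := by
        have := sum_part T (P := P) (p := p) (by omega) (by omega)
        conv_rhs => rw [← this]
        rw [Finset.mul_sum, Finset.sum_mul]
        apply Finset.sum_congr rfl
        intro i _
        split_ifs
        · rfl
        · simp
      have s2 : ∑ j : Fin 3 × Fin Q,
          (if (j.2 : ℕ) < bn j.1 then 2 * X ^ (N + (j.1 : ℕ)) * w j.1 else 0)
          = 2 * X ^ N * (w0 + (b1 : ℤ⟦X⟧) * X * w1 + (b2 : ℤ⟦X⟧) * X ^ 2 * w2) := by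
        rw [Fintype.sum_prod_type]
        have : ∀ a : Fin 3, ∑ k : Fin Q,
            (if (k : ℕ) < bn a then 2 * X ^ (N + (a : ℕ)) * w a else 0)
            = (bn a : ℤ⟦X⟧) * (2 * X ^ (N + (a : ℕ)) * w a) :=
          fun a => sum_ite_lt_ring (hbn a) _
        rw [Finset.sum_congr rfl (fun a _ => this a), Fin.sum_univ_three]
        have e0 : bn 0 = 1 := rfl
        have e1 : bn 1 = b1 := rfl
        have e2 : bn 2 = b2 := rfl
        have f0 : w 0 = w0 := rfl
        have f1 : w 1 = w1 := rfl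
        have f2 : w 2 = w2 := rfl
        have g0 : ((0 : Fin 3) : ℕ) = 0 := rfl
        have g1 : ((1 : Fin 3) : ℕ) = 1 := rfl
        have g2 : ((2 : Fin 3) : ℕ) = 2 := rfl
        rw [e0, e1, e2, f0, f1, f2, g0, g1, g2]
        push_cast
        ring
      rw [s1, s2]
      show 2 * X ^ N * U * vi E = _
      have x3 : (X : ℤ⟦X⟧) ^ (N + 3) = X ^ N * X ^ 3 := by ring
      rw [x3]
      set Sg := (w0 + (b1 : ℤ⟦X⟧) * X * w1 + (b2 : ℤ⟦X⟧) * X ^ 2 * w2)
      linear_combination (-(2 * X ^ N * vi E)) * hsplit + (2 * X ^ N * Sg) * hv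
    · intro _
      refine ⟨⟨⟨0, by omega⟩, ?_⟩, ⟨(0, ⟨0, by omega⟩), ?_⟩⟩
      · simp only [show (0 : ℕ) < p by omega, if_true]
        exact Option.some_ne_none _
      · have : ((⟨0, by omega⟩ : Fin Q) : ℕ) < bn 0 := by
          show 0 < 1
          norm_num
        simp only [this, if_true]
        show 0 < N + 0
        omega

theorem exists_main {P Q : ℕ} (hP : 1020408 ≤ P) (hQ : 10204 ≤ Q) :
    ∃ H : Subgroup (FreeGroup (Fin P ⊕ (Fin 3 × Fin Q))), ¬ H.FG ∧
      (1 - 100 * X - 2 * X ^ 10) * gf (H : Set (FreeGroup (Fin P ⊕ (Fin 3 × Fin Q))))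
        = 1 - 100 * X := by
  choose step lp y b h1 h2 h3 h4 h5 using fun s => state_step hP hQ s
  have hroot : Inv 10 1 0 := by
    refine ⟨le_refl _, by simp, ?_, by simp, ?_⟩
    · intro j
      rw [coeff_one]
      split_ifs with h
      · subst h; simp
      · simp
    · intro j
      rw [map_zero, Int.cast_zero, abs_zero]
      have : (0 : ℝ) ≤ 1 - 4 / 2 ^ 10 := by norm_num
      positivity
  let s0 : Option Node := some ⟨(10, 1, 0), hroot⟩
  refine ⟨KK step lp s0, ?_, ?_⟩
  · apply KK_not_fg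
    have : ∀ d, ∃ w : List (Fin P), w.length = d ∧ run step s0 w ≠ none := by
      intro d
      induction d with
      | zero => exact ⟨[], rfl, Option.some_ne_none _⟩
      | succ d ih =>
        obtain ⟨w, hw, hr⟩ := ih
        obtain ⟨⟨i, hi⟩, _⟩ := h5 _ hr
        refine ⟨w ++ [i], by simp [hw], ?_⟩
        rw [run, List.foldl_append]
        exact hi
    intro d
    obtain ⟨w, hw, hr⟩ := this d
    exact ⟨w, hw, (h5 _ hr).2⟩
  · have hf0 : ∀ s, constantCoeff (fval s) = 0 := by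
      intro s
      cases s with
      | none => simp [fval]
      | some n =>
        have hN := n.2.hN
        simp [fval, show n.1.1 ≠ 0 by omega]
    have key := uniq_series step lp fval b y h1 h2 hf0 h3 h4 s0
    have hv : Vd 0 * vi 0 = 1 := Vd_mul (by simp)
    have e1 : Vd 0 = 1 - 100 * X := by
      rw [Vd]
      simp
    have e2 : fval s0 = 2 * X ^ 10 * 1 * vi 0 := rfl
    rw [e1] at hv
    rw [e2] at key
    rw [GG] at key
    set G := gf (KK step lp s0 : Set (FreeGroup (Fin P ⊕ (Fin 3 × Fin Q))))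
    linear_combination (1 - 100 * X) * key + (2 * X ^ 10 * G) * hv

theorem norm_map_le {α β : Type*} [DecidableEq α] [DecidableEq β] (f : α → β) (g : FreeGroup α) :
    (FreeGroup.map f g).norm ≤ g.norm := by
  conv_lhs => rw [← FreeGroup.mk_toWord (x := g)]
  rw [FreeGroup.map.mk]
  refine norm_mk_le.trans ?_
  rw [List.length_map]
  exact le_refl _

theorem norm_congr {α β : Type*} [DecidableEq α] [DecidableEq β] (e : α ≃ β) (g : FreeGroup α) :
    (FreeGroup.freeGroupCongr e g).norm = g.norm := by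
  apply le_antisymm
  · exact norm_map_le e g
  · have := norm_map_le e.symm (FreeGroup.freeGroupCongr e g)
    have h2 : FreeGroup.map e.symm (FreeGroup.freeGroupCongr e g) = g :=
      (FreeGroup.freeGroupCongr e).symm_apply_apply g
    rwa [h2] at this

theorem card_eq_gf {S : Type*} [DecidableEq S] [Finite S] (H : Subgroup (FreeGroup S)) (n : ℕ) :
    (Nat.card {h : FreeGroup S // h ∈ H ∧ h.norm = n} : ℤ) = coeff n (gf (H : Set (FreeGroup S))) := by
  rw [coeff_gf]
  congr 1
  have e : {h : FreeGroup S // h ∈ H ∧ h.norm = n} ≃ {h // h ∈ sph (H : Set (FreeGroup S)) n} :=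
    Equiv.subtypeEquivRight (fun h => (mem_sph (s := (H : Set (FreeGroup S)))
      (n := n) (g := h)).symm)
  rw [Nat.card_congr e, Nat.card_eq_fintype_card, Fintype.card_coe]

theorem transport {S S' : Type} [DecidableEq S] [DecidableEq S'] (e : S ≃ S')
    (H : Subgroup (FreeGroup S)) (hH : ¬ H.FG) :
    ∃ H' : Subgroup (FreeGroup S'), ¬ H'.FG ∧ ∀ n, Nat.card {h : FreeGroup S' // h ∈ H' ∧ h.norm = n}
      = Nat.card {h : FreeGroup S // h ∈ H ∧ h.norm = n} := by
  let φ := FreeGroup.freeGroupCongr e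
  refine ⟨H.map φ.toMonoidHom, ?_, ?_⟩
  · intro hfg
    apply hH
    rw [← Group.fg_iff_subgroup_fg] at hfg ⊢
    let ψ := H.equivMapOfInjective φ.toMonoidHom φ.injective
    exact Group.fg_of_surjective (f := ψ.symm.toMonoidHom) ψ.symm.surjective
  · intro n
    symm
    apply Nat.card_congr
    refine φ.toEquiv.subtypeEquiv ?_
    intro g
    have h1 : (φ.toEquiv g).norm = g.norm := norm_congr e g
    rw [h1]
    constructor
    · rintro ⟨h, hn⟩
      exact ⟨⟨g, h, rfl⟩, hn⟩
    · rintro ⟨⟨g', hg', he⟩, hn⟩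
      have : g' = g := φ.injective he
      exact ⟨this ▸ hg', hn⟩

end H749.Cog
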