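import Pool.Agent.H749R4.Tree

/-! Recursion for the generating functions and its uniqueness. -/

namespace H749.Cog

open FreeGroup PowerSeries

variable {I J : Type*} [DecidableEq I] [DecidableEq J] [Fintype I] [Fintype J]

theorem gf_slot_inl {H : I → Subgroup (FreeGroup (I ⊕ J))} (hH : ∀ i, Good (H i)) (ℓ : J → ℕ)
    (i : I) : gf (nt (slot H ℓ (Sum.inl i))) = X ^ 2 * gf (nt (H i)) := by
  apply gf_shift (fun g => FreeGroup.of (Sum.inl i) * g * (FreeGroup.of (Sum.inl i))⁻¹)
  · rintro g ⟨hg, hg1⟩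
    refine ⟨⟨⟨g, hg, rfl⟩, ?_⟩, ?_⟩
    · intro h
      apply hg1
      have : g = (FreeGroup.of (Sum.inl i))⁻¹ *
        (FreeGroup.of (Sum.inl i) * g * (FreeGroup.of (Sum.inl i))⁻¹) * FreeGroup.of (Sum.inl i) := by
        group
      rw [this, h]
      group
    · exact conj_norm i hg1 (hH i g hg) (hH i g⁻¹ ((H i).inv_mem hg))
  · intro g _ g' _ h
    exact (MulAut.conj (FreeGroup.of (Sum.inl i : I ⊕ J))).injective h
  · rintro k ⟨⟨g, hg, rfl⟩, hk1⟩
    refine ⟨g, ⟨hg, ?_⟩, rfl⟩
    rintro rfl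
    exact hk1 (map_one _)

theorem gf_zpowers {S : Type*} [DecidableEq S] [Finite S] (a : S) {ℓ : ℕ} (hℓ : 0 < ℓ) :
    gf (nt (Subgroup.zpowers (FreeGroup.of a ^ ℓ))) * (1 - X ^ ℓ) = 2 * X ^ ℓ := by
  set z := (FreeGroup.of a : FreeGroup S) ^ ℓ with hz
  let P : Set (FreeGroup S) := {g | ∃ k : ℕ, g = z ^ (k + 1)}
  let P' : Set (FreeGroup S) := {g | ∃ k : ℕ, g = (z ^ (k + 1))⁻¹}
  have hn : ∀ k : ℕ, (z ^ k).norm = ℓ * k := by
    intro k
    rw [hz, ← pow_mul, norm_of_pow]
  have hflp : ∀ k : ℕ, fl (z ^ (k + 1)) = some (a, true) := by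
    intro k
    rw [hz, ← pow_mul]
    exact fl_of_pow _ (by positivity)
  have hfln : ∀ k : ℕ, fl (z ^ (k + 1))⁻¹ = some (a, false) := by
    intro k
    rw [hz, ← pow_mul]
    exact fl_of_pow_inv _ (by positivity)
  have h1 : gf (nt (Subgroup.zpowers z)) = gf P + gf P' := by
    apply gf_union
    · intro g
      constructor
      · rintro ⟨hg, hg1⟩
        obtain ⟨n, rfl⟩ := Subgroup.mem_zpowers_iff.1 hg
        rcases Int.eq_nat_or_neg n with ⟨m, hm | hm⟩
        · subst hm
          cases m with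
          | zero => exact absurd (by simp) hg1
          | succ m => exact Or.inl ⟨m, by rw [zpow_natCast]⟩
        · subst hm
          cases m with
          | zero => exact absurd (by simp) hg1
          | succ m => exact Or.inr ⟨m, by rw [zpow_neg, zpow_natCast]⟩
      · rintro (⟨k, rfl⟩ | ⟨k, rfl⟩)
        · refine ⟨Subgroup.pow_mem _ (Subgroup.mem_zpowers _) _, ?_⟩
          intro h
          have := hflp k
          rw [h, fl_one] at this
          exact absurd this (by simp)
        · refine ⟨Subgroup.inv_mem _ (Subgroup.pow_mem _ (Subgroup.mem_zpowers _) _), ?_⟩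
          intro h
          have := hfln k
          rw [h, fl_one] at this
          exact absurd this (by simp)
    · rintro g ⟨k, hk⟩ ⟨k', hk'⟩
      have e1 := hflp k
      have e2 := hfln k'
      rw [← hk] at e1
      rw [← hk', e1] at e2
      exact absurd (congrArg Prod.snd (Option.some.inj e2)) (by simp)
  have h2 : gf P' = gf P := by
    have := gf_shift (s := P) (u := P') (fun g => g⁻¹) 0
      (by
        rintro g ⟨k, rfl⟩
        exact ⟨⟨k, rfl⟩, by simp⟩)
      (by
        intro g _ g' _ h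
        exact inv_injective h)
      (by
        rintro g ⟨k, rfl⟩
        exact ⟨_, ⟨k, rfl⟩, rfl⟩)
    rw [this]
    simp
  have h3 : gf P = X ^ ℓ + X ^ ℓ * gf P := by
    have e1 : gf ({z} : Set (FreeGroup S)) = X ^ ℓ := by
      have := gf_shift (s := {1}) (u := {z}) (fun _ => z) ℓ
        (by
          intro g hg
          refine ⟨rfl, ?_⟩
          have hg' : g = 1 := hg
          have := hn 1
          rw [pow_one] at this
          rw [this, hg']
          simp)
        (by
          intro g hg g' hg' _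
          exact Eq.trans hg hg'.symm)
        (by
          intro k hk
          exact ⟨1, rfl, (Set.mem_singleton_iff.1 hk).symm⟩)
      rw [this, gf_one, mul_one]
    have e2 : gf ((fun g => z * g) '' P) = X ^ ℓ * gf P := by
      apply gf_shift (fun g => z * g)
      · rintro g ⟨k, rfl⟩
        refine ⟨⟨_, ⟨k, rfl⟩, rfl⟩, ?_⟩
        rw [← pow_succ', hn, hn]
        ring
      · intro g _ g' _ h
        exact mul_left_cancel h
      · rintro k ⟨g, hg, rfl⟩
        exact ⟨g, hg, rfl⟩
    rw [← e2]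
    conv_rhs => rw [← e1]
    apply gf_union
    · intro g
      constructor
      · rintro ⟨k, rfl⟩
        cases k with
        | zero => exact Or.inl (by simp)
        | succ k => exact Or.inr ⟨z ^ (k + 1), ⟨k, rfl⟩, (pow_succ' z (k + 1)).symm⟩
      · rintro (h | ⟨g', ⟨k, rfl⟩, rfl⟩)
        · exact ⟨0, by rw [Set.mem_singleton_iff.1 h]; simp⟩
        · exact ⟨k + 1, (pow_succ' z (k + 1)).symm⟩
    · rintro g hg ⟨g', ⟨k, rfl⟩, rfl⟩
      have hg' : z * z ^ (k + 1) = z := hg
      have : z ^ (k + 1) = 1 := by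
        apply mul_left_cancel (a := z)
        rw [hg', mul_one]
      have h5 := hn (k + 1)
      rw [this, FreeGroup.norm_one] at h5
      have : 0 < ℓ * (k + 1) := by positivity
      omega
  rw [h1, h2]
  linear_combination 2 * h3

theorem gf_slot_inr {H : I → Subgroup (FreeGroup (I ⊕ J))} {ℓ : J → ℕ} {j : J} {b : ℤ⟦X⟧}
    (h1 : 0 < ℓ j → b * (1 + X ^ ℓ j) = 2 * X ^ ℓ j) (h0 : ℓ j = 0 → b = 0) :
    b * (1 + gf (nt (slot H ℓ (Sum.inr j)))) = gf (nt (slot H ℓ (Sum.inr j))) := by
  show b * (1 + gf (nt (Subgroup.zpowers (FreeGroup.of (Sum.inr j) ^ ℓ j))))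
    = gf (nt (Subgroup.zpowers (FreeGroup.of (Sum.inr j) ^ ℓ j)))
  rcases Nat.eq_zero_or_pos (ℓ j) with h | h
  · rw [h0 h, h]
    have : nt (Subgroup.zpowers (FreeGroup.of (Sum.inr j) ^ 0 : FreeGroup (I ⊕ J))) = ∅ := by
      ext g
      simp only [pow_zero, Subgroup.zpowers_one_eq_bot, nt, Subgroup.mem_bot, Set.mem_ofPred_eq,
        Set.mem_empty_iff_false, iff_false]
      rintro ⟨h, h'⟩
      exact h' h
    rw [this, gf_empty]
    ring
  · have hA := gf_zpowers (Sum.inr j : I ⊕ J) h
    have hb := h1 h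
    set A := gf (nt (Subgroup.zpowers (FreeGroup.of (Sum.inr j : I ⊕ J) ^ ℓ j)))
    have hne : (1 - X ^ ℓ j : ℤ⟦X⟧) ≠ 0 := by
      intro hx
      have := congrArg constantCoeff hx
      simp [h.ne'] at this
    apply mul_right_cancel₀ hne
    linear_combination (b - 1) * hA + hb

variable {St : Type*} (step : St → I → St) (lp : St → J → ℕ)

/-- generating function of a state -/
noncomputable def GG (s : St) : ℤ⟦X⟧ := gf (KK step lp s : Set (FreeGroup (I ⊕ J)))

theorem GG_rec (s : St) (b : J → ℤ⟦X⟧) (y : I → ℤ⟦X⟧)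
    (hb1 : ∀ j, 0 < lp s j → b j * (1 + X ^ lp s j) = 2 * X ^ lp s j)
    (hb0 : ∀ j, lp s j = 0 → b j = 0)
    (hy : ∀ i, y i * (1 + X ^ 2 * (GG step lp (step s i) - 1))
      = X ^ 2 * (GG step lp (step s i) - 1)) :
    GG step lp s * (1 - (∑ i, y i + ∑ j, b j)) = 1 := by
  have h := slots_gf (KK_slotC step lp s) (Sum.elim y b) (by
    intro σ
    cases σ with
    | inl i =>
      rw [gf_slot_inl (fun i => KK_good step lp (step s i))]
      have := gf_nt (KK step lp (step s i))
      have h2 : gf (nt (KK step lp (step s i))) = GG step lp (step s i) - 1 := by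
        rw [GG, this]; ring
      rw [h2]
      exact hy i
    | inr j => exact gf_slot_inr (hb1 j) (hb0 j))
  rw [← KK_eq, Fintype.sum_sum_type] at h
  exact h

theorem GG_const (s : St) : constantCoeff (GG step lp s) = 1 := by
  rw [← coeff_zero_eq_constantCoeff_apply, GG, coeff_gf]
  have : sph (KK step lp s : Set (FreeGroup (I ⊕ J))) 0 = {1} := by
    ext g
    simp only [mem_sph, SetLike.mem_coe, Finset.mem_singleton, FreeGroup.norm_eq_zero]
    constructor
    · exact fun h => h.2
    · rintro rfl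
      exact ⟨one_mem _, rfl⟩
  rw [this]
  simp

theorem unit_of_const {u : ℤ⟦X⟧} (h : constantCoeff u = 1) : IsUnit u := by
  rw [isUnit_iff_constantCoeff, h]
  exact isUnit_one

theorem uniq_series (f : St → ℤ⟦X⟧) (b : St → J → ℤ⟦X⟧) (y : St → I → ℤ⟦X⟧)
    (hb1 : ∀ s j, 0 < lp s j → b s j * (1 + X ^ lp s j) = 2 * X ^ lp s j)
    (hb0 : ∀ s j, lp s j = 0 → b s j = 0)
    (hf0 : ∀ s, constantCoeff (f s) = 0)
    (hy : ∀ s i, y s i * (1 - (1 - X ^ 2) * f (step s i)) = X ^ 2 * f (step s i))
    (hf : ∀ s, f s = ∑ i, y s i + ∑ j, b s j) (s : St) :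
    GG step lp s * (1 - f s) = 1 := by
  -- the true values
  have hG : ∀ s, ∃ g, GG step lp s * (1 - g) = 1 := by
    intro s
    obtain ⟨v, hv⟩ := (unit_of_const (GG_const step lp s)).exists_right_inv
    exact ⟨1 - v, by rw [sub_sub_cancel]; exact hv⟩
  choose g hg using hG
  have hg0 : ∀ s, constantCoeff (g s) = 0 := by
    intro s
    have := congrArg constantCoeff (hg s)
    rw [_root_.map_mul, GG_const, one_mul, map_sub, _root_.map_one] at this
    linarith
  have hug : ∀ s, IsUnit (1 - (1 - X ^ 2) * g s) := fun s => unit_of_const (by simp [hg0 s])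
  have huf : ∀ s, IsUnit (1 - (1 - X ^ 2) * f s) := fun s => unit_of_const (by simp [hf0 s])
  have ht : ∀ s i, ∃ t, t * (1 - (1 - X ^ 2) * g (step s i)) = X ^ 2 * g (step s i) := by
    intro s i
    obtain ⟨v, hv⟩ := (hug (step s i)).exists_right_inv
    refine ⟨X ^ 2 * g (step s i) * v, ?_⟩
    rw [mul_assoc, mul_comm v, hv, mul_one]
  choose t ht using ht
  have hu1 : ∀ s, IsUnit (1 - g s) := fun s => unit_of_const (by simp [hg0 s])
  have ht2 : ∀ s i, t s i * (1 + X ^ 2 * (GG step lp (step s i) - 1))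
      = X ^ 2 * (GG step lp (step s i) - 1) := by
    intro s i
    apply (hu1 (step s i)).mul_right_cancel
    have h1 := hg (step s i)
    have h2 := ht s i
    linear_combination h2 + (t s i * X ^ 2 - X ^ 2) * h1
  have hgs : ∀ s, g s = ∑ i, t s i + ∑ j, b s j := by
    intro s
    have h1 := GG_rec step lp s (b s) (t s) (hb1 s) (hb0 s) (ht2 s)
    have h2 := hg s
    have h3 : GG step lp s * (g s - (∑ i, t s i + ∑ j, b s j)) = 0 := by
      linear_combination h1 - h2
    have h4 := (mul_eq_zero.1 h3).resolve_left (by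
      intro h
      have := GG_const step lp s
      rw [h, map_zero] at this
      exact zero_ne_one this)
    exact sub_eq_zero.1 h4
  have key : ∀ N : ℕ, ∀ s, (X : ℤ⟦X⟧) ^ N ∣ g s - f s := by
    intro N
    induction N with
    | zero => intro s; rw [pow_zero]; exact one_dvd _
    | succ N ih =>
      intro s
      rw [hgs, hf]
      have : (∑ i, t s i + ∑ j, b s j) - (∑ i, y s i + ∑ j, b s j) = ∑ i, (t s i - y s i) := by
        rw [Finset.sum_sub_distrib]; ring
      rw [this]
      apply Finset.dvd_sum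
      intro i _
      rw [← (huf (step s i)).dvd_mul_right]
      have h1 : (t s i - y s i) * (1 - (1 - X ^ 2) * f (step s i))
          = (g (step s i) - f (step s i)) * (X ^ 2 + t s i * (1 - X ^ 2)) := by
        linear_combination ht s i - hy s i
      rw [h1, pow_succ]
      apply mul_dvd_mul (ih (step s i))
      apply dvd_add
      · exact dvd_pow_self _ (by norm_num)
      · apply Dvd.dvd.mul_right
        rw [← (hug (step s i)).dvd_mul_right, ht s i]
        exact Dvd.dvd.mul_right (dvd_pow_self _ (by norm_num)) _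
  have hfg : g s = f s := by
    rw [← sub_eq_zero]
    ext n
    rw [map_zero]
    exact (X_pow_dvd_iff.1 (key (n + 1) s)) n (Nat.lt_succ_self n)
  rw [← hfg]
  exact hg s

end H749.Cog
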