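import Mathlib

/-! The integer series process. -/

namespace H749.Cog

open PowerSeries

/-- coefficient bound with weight 2^j -/
def Bd (u : ℤ⟦X⟧) (K : ℝ) : Prop := ∀ j, |((coeff j u : ℤ) : ℝ)| ≤ K * 2 ^ j

theorem Bd.mono {u : ℤ⟦X⟧} {K K' : ℝ} (h : Bd u K) (hK : K ≤ K') : Bd u K' := fun j =>
  (h j).trans (mul_le_mul_of_nonneg_right hK (by positivity))

theorem Bd.add {u v : ℤ⟦X⟧} {K K' : ℝ} (h : Bd u K) (h' : Bd v K') : Bd (u + v) (K + K') := by
  intro j
  rw [map_add, Int.cast_add]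
  calc _ ≤ |((coeff j u : ℤ) : ℝ)| + |((coeff j v : ℤ) : ℝ)| := abs_add_le _ _
    _ ≤ K * 2 ^ j + K' * 2 ^ j := add_le_add (h j) (h' j)
    _ = _ := by ring

theorem Bd.cmul {u : ℤ⟦X⟧} {K : ℝ} (c : ℤ) (h : Bd u K) : Bd (C c * u) (|(c : ℝ)| * K) := by
  intro j
  rw [coeff_C_mul, Int.cast_mul, abs_mul, mul_assoc]
  exact mul_le_mul_of_nonneg_left (h j) (abs_nonneg _)

theorem Bd.Xmul {u : ℤ⟦X⟧} {K : ℝ} (a : ℕ) (hK : 0 ≤ K) (h : Bd u K) :
    Bd (X ^ a * u) (K / 2 ^ a) := by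
  intro j
  rw [coeff_X_pow_mul']
  split_ifs with haj
  · refine (h (j - a)).trans (le_of_eq ?_)
    obtain ⟨k, rfl⟩ := Nat.exists_eq_add_of_le haj
    rw [Nat.add_sub_cancel_left, pow_add]
    field_simp
  · rw [Int.cast_zero, abs_zero]
    positivity

theorem Bd.geom {u z : ℤ⟦X⟧} {K : ℝ} {L : ℕ} (hL : 1 ≤ L) (hK : 0 ≤ K)
    (hz : z * (1 + X ^ L) = u) (h : Bd u K) : Bd z (2 * K) := by
  intro j
  induction j using Nat.strong_induction_on with
  | _ j ih =>
    have e : z = u - X ^ L * z := by rw [← hz]; ring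
    have ec : coeff j z = coeff j u - coeff j (X ^ L * z) := by
      conv_lhs => rw [e]
      rw [map_sub]
    rw [ec, coeff_X_pow_mul']
    split_ifs with hj
    · have h1 := h j
      have h2 := ih (j - L) (by omega)
      have h3 : (2 : ℝ) ^ (j - L) * 2 ≤ 2 ^ j := by
        rw [← pow_succ]
        exact pow_le_pow_right₀ (by norm_num) (by omega)
      rw [Int.cast_sub]
      calc |((coeff j u : ℤ) : ℝ) - ((coeff (j - L) z : ℤ) : ℝ)|
          ≤ |((coeff j u : ℤ) : ℝ)| + |((coeff (j - L) z : ℤ) : ℝ)| := abs_sub _ _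
        _ ≤ K * 2 ^ j + 2 * K * 2 ^ (j - L) := add_le_add h1 h2
        _ = K * 2 ^ j + K * (2 ^ (j - L) * 2) := by ring
        _ ≤ K * 2 ^ j + K * 2 ^ j := by gcongr
        _ = 2 * K * 2 ^ j := by ring
    · rw [sub_zero]
      refine (h j).trans ?_
      have : 0 ≤ K * 2 ^ j := by positivity
      linarith

/-- invariants of a bulk node -/
structure Inv (N : ℕ) (U E : ℤ⟦X⟧) : Prop where
  hN : 10 ≤ N
  hU0 : coeff 0 U = 1
  hU : Bd U 1
  hE0 : ∀ j < 4, coeff j E = 0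
  hE : Bd E (1 - 4 / 2 ^ N)

/-- denominator -/
noncomputable def Vd (E : ℤ⟦X⟧) : ℤ⟦X⟧ := 1 - C 100 * X - E

/-- its inverse -/
noncomputable def vi (E : ℤ⟦X⟧) : ℤ⟦X⟧ := invOfUnit (Vd E) 1

theorem Vd_mul {E : ℤ⟦X⟧} (h : coeff 0 E = 0) : Vd E * vi E = 1 := by
  apply mul_invOfUnit
  rw [Vd]
  rw [coeff_zero_eq_constantCoeff_apply] at h
  simp [h]

theorem sum_ite_lt {P p : ℕ} (h : p ≤ P) (a : ℤ) :
    ∑ i : Fin P, (if (i : ℕ) < p then a else 0) = p * a := by
  rw [Fin.sum_univ_eq_sum_range (fun i => if i < p then a else 0) P, ← Finset.sum_filter]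
  have : (Finset.range P).filter (fun i => i < p) = Finset.range p := by
    ext i
    simp only [Finset.mem_filter, Finset.mem_range]
    omega
  rw [this]
  simp

theorem sum_ite_lt' {P p r : ℕ} (h : p ≤ P) (hr : r ≤ p) (a : ℤ) :
    ∑ i : Fin P, (if (i : ℕ) < p then a + (if (i : ℕ) < r then 1 else 0) else 0) = p * a + r := by
  have : ∀ i : Fin P, (if (i : ℕ) < p then a + (if (i : ℕ) < r then 1 else 0) else 0)
      = (if (i : ℕ) < p then a else 0) + (if (i : ℕ) < r then (1 : ℤ) else 0) := by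
    intro i
    by_cases h1 : (i : ℕ) < p
    · simp [h1]
    · have h2 : ¬ (i : ℕ) < r := by omega
      simp [h1, h2]
  rw [Finset.sum_congr rfl (fun i _ => this i), Finset.sum_add_distrib, sum_ite_lt h,
    sum_ite_lt (hr.trans h)]
  ring

/-- the i-th part of T divided in p parts -/
noncomputable def part (T : ℤ⟦X⟧) (p : ℕ) (i : ℕ) : ℤ⟦X⟧ :=
  PowerSeries.mk fun j => coeff j T / p + (if i < (coeff j T % p).toNat then 1 else 0)

theorem sum_part (T : ℤ⟦X⟧) {P p : ℕ} (h : p ≤ P) (hp : 0 < p) :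
    ∑ i : Fin P, (if (i : ℕ) < p then part T p i else 0) = T := by
  ext j
  rw [map_sum]
  have : ∀ i : Fin P, coeff j (if (i : ℕ) < p then part T p i else 0)
      = (if (i : ℕ) < p then coeff j T / p +
        (if (i : ℕ) < (coeff j T % p).toNat then 1 else 0) else 0) := by
    intro i
    by_cases h1 : (i : ℕ) < p
    · rw [if_pos h1, if_pos h1, part, coeff_mk]
    · rw [if_neg h1, if_neg h1, map_zero]
  rw [Finset.sum_congr rfl (fun i _ => this i), sum_ite_lt' h]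
  · have h1 : 0 ≤ coeff j T % p := Int.emod_nonneg _ (by positivity)
    rw [Int.toNat_of_nonneg h1]
    have := Int.mul_ediv_add_emod (coeff j T) p
    linarith
  · have h1 : coeff j T % p < p := Int.emod_lt_of_pos _ (by positivity)
    omega

theorem part_zero {T : ℤ⟦X⟧} {p : ℕ} (hp : 0 < p) (h : coeff 0 T = p) (i : ℕ) :
    coeff 0 (part T p i) = 1 := by
  have hp' : (p : ℤ) ≠ 0 := by positivity
  rw [part, coeff_mk, h, Int.ediv_self hp', Int.emod_self, Int.toNat_zero, if_neg (Nat.not_lt_zero i)]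
  norm_num

theorem part_bd {T : ℤ⟦X⟧} {p : ℕ} (hp : 979592 ≤ p) (h : coeff 0 T = p)
    (hT : ∀ j, 1 ≤ j → |coeff j T| ≤ 21872 * 2 ^ j) (i : ℕ) : Bd (part T p i) 1 := by
  intro j
  rcases Nat.eq_zero_or_pos j with rfl | hj
  · rw [part_zero (by omega) h]
    simp
  · have h1 := hT j hj
    obtain ⟨k, rfl⟩ : ∃ k, j = k + 1 := ⟨j - 1, by omega⟩
    have h2 : |coeff (k + 1) (part T p i)| ≤ 2 ^ (k + 1) := by
      rw [part, coeff_mk]
      set t := coeff (k + 1) T
      have hk : (1 : ℤ) ≤ 2 ^ k := by exact_mod_cast Nat.one_le_two_pow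
      have hp' : (979592 : ℤ) ≤ p := by exact_mod_cast hp
      have hb : 21872 * (2 : ℤ) ^ (k + 1) ≤ 2 ^ k * p := by
        rw [pow_succ]; nlinarith
      obtain ⟨h3, h4⟩ := abs_le.1 h1
      have h5 : t / p ≤ 2 ^ k := Int.ediv_le_of_le_mul (by linarith) (by linarith)
      have h6 : -(2 ^ k) ≤ t / p := Int.le_ediv_of_mul_le (by linarith) (by linarith)
      have h7 : (2 : ℤ) ^ (k + 1) = 2 * 2 ^ k := by ring
      rw [abs_le]
      split_ifs
      · constructor <;> linarith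
      · constructor <;> linarith
    rw [one_mul]
    exact_mod_cast h2

end H749.Cog
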