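import Pool.Agent.H749R4.GF

/-! Free products of subgroups without cancellation. -/

namespace H749.Cog

open FreeGroup PowerSeries

variable {S : Type*} [DecidableEq S]

/-- first letter of the reduced word -/
def fl (g : FreeGroup S) : Option (S × Bool) := g.toWord.head?

/-- last letter of the reduced word -/
def ll (g : FreeGroup S) : Option (S × Bool) := g.toWord.getLast?

theorem ll_eq_inv (g : FreeGroup S) : ll g = (fl g⁻¹).map fun x => (x.1, !x.2) := by
  unfold ll fl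
  rw [toWord_inv, invRev, List.head?_reverse, List.getLast?_map, Option.map_map]
  have : ((fun x : S × Bool => (x.1, !x.2)) ∘ fun g : S × Bool => (g.1, !g.2)) = id := by
    funext x
    simp
  rw [this, Option.map_id]
  rfl

theorem fl_one : fl (1 : FreeGroup S) = none := by simp [fl]

theorem fl_eq_none {g : FreeGroup S} : fl g = none ↔ g = 1 := by
  unfold fl
  rw [List.head?_eq_none_iff, toWord_eq_nil_iff]

theorem toWord_mul_of {h k : FreeGroup S}
    (hc : ∀ x, ll h = some x → ∀ y, fl k = some y → x.1 = y.1 → x.2 = y.2) :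
    (h * k).toWord = h.toWord ++ k.toWord := by
  rw [toWord_mul]
  apply IsReduced.reduce_eq
  unfold FreeGroup.IsReduced
  rw [List.isChain_append]
  refine ⟨isReduced_toWord, isReduced_toWord, ?_⟩
  intro x hx y hy
  exact hc x (by simpa [ll] using hx) y (by simpa [fl] using hy)

theorem norm_mul_of {h k : FreeGroup S}
    (hc : ∀ x, ll h = some x → ∀ y, fl k = some y → x.1 = y.1 → x.2 = y.2) :
    (h * k).norm = h.norm + k.norm := by
  unfold FreeGroup.norm
  rw [toWord_mul_of hc, List.length_append]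

theorem fl_mul_of {h k : FreeGroup S} (hh : h ≠ 1)
    (hc : ∀ x, ll h = some x → ∀ y, fl k = some y → x.1 = y.1 → x.2 = y.2) :
    fl (h * k) = fl h := by
  have h1 : h.toWord ≠ [] := by rwa [Ne, toWord_eq_nil_iff]
  unfold fl
  rw [toWord_mul_of hc, List.head?_append_of_ne_nil _ h1]

/-- k does not start with a letter of slot σ -/
def NS (σ : S) (k : FreeGroup S) : Prop := ∀ x, fl k = some x → x.1 ≠ σ

theorem NS_one (σ : S) : NS σ (1 : FreeGroup S) := by
  intro x hx
  rw [fl_one] at hx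
  exact absurd hx (by simp)

/-- slot condition -/
def SlotC (L : S → Subgroup (FreeGroup S)) : Prop :=
  ∀ σ, ∀ h ∈ L σ, h ≠ 1 → ∃ ε, fl h = some (σ, ε)

variable {L : S → Subgroup (FreeGroup S)}

theorem SlotC.last (hL : SlotC L) {σ : S} {h : FreeGroup S} (hh : h ∈ L σ) (h1 : h ≠ 1) :
    ∃ ε, ll h = some (σ, ε) := by
  obtain ⟨ε, he⟩ := hL σ h⁻¹ ((L σ).inv_mem hh) (by simpa using h1)
  exact ⟨!ε, by rw [ll_eq_inv, he]; rfl⟩

theorem SlotC.nc (hL : SlotC L) {σ : S} {h k : FreeGroup S} (hh : h ∈ L σ) (h1 : h ≠ 1)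
    (hk : NS σ k) :
    ∀ x, ll h = some x → ∀ y, fl k = some y → x.1 = y.1 → x.2 = y.2 := by
  intro x hx y hy hxy
  obtain ⟨ε, he⟩ := hL.last hh h1
  rw [he] at hx
  have : x.1 = σ := by
    rw [← Option.some.inj hx]
  exact absurd (hxy.symm.trans this) (hk y hy)

theorem SlotC.fl_mul (hL : SlotC L) {σ : S} {h k : FreeGroup S} (hh : h ∈ L σ) (h1 : h ≠ 1)
    (hk : NS σ k) : ∃ ε, fl (h * k) = some (σ, ε) := by
  rw [fl_mul_of h1 (hL.nc hh h1 hk)]
  exact hL σ h hh h1

/-- alternating products -/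
inductive Alt (L : S → Subgroup (FreeGroup S)) : FreeGroup S → Prop
  | one : Alt L 1
  | cons (σ : S) (h k : FreeGroup S) : h ∈ L σ → h ≠ 1 → Alt L k → NS σ k → Alt L (h * k)

theorem Alt.mem {k : FreeGroup S} (hk : Alt L k) : k ∈ ⨆ σ, L σ := by
  induction hk with
  | one => exact Subgroup.one_mem _
  | cons σ h k hh _ _ _ ih => exact Subgroup.mul_mem _ (Subgroup.mem_iSup_of_mem σ hh) ih

theorem Alt.lmul (hL : SlotC L) {τ : S} {a k : FreeGroup S} (ha : a ∈ L τ) (hk : Alt L k) :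
    Alt L (a * k) := by
  by_cases ha1 : a = 1
  · rw [ha1, one_mul]; exact hk
  cases hk with
  | one => exact Alt.cons τ a 1 ha ha1 Alt.one (NS_one τ)
  | cons σ h k hh h1 hk hns =>
    by_cases hs : τ = σ
    · subst hs
      rw [← mul_assoc]
      by_cases hah : a * h = 1
      · rw [hah, one_mul]; exact hk
      · exact Alt.cons τ (a * h) k ((L τ).mul_mem ha hh) hah hk hns
    · refine Alt.cons τ a (h * k) ha ha1 (Alt.cons σ h k hh h1 hk hns) ?_
      intro x hx
      obtain ⟨ε, he⟩ := hL.fl_mul hh h1 hns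
      rw [he] at hx
      rw [← Option.some.inj hx]
      exact fun h => hs h.symm

theorem alt_of_mem (hL : SlotC L) {k : FreeGroup S} (hk : k ∈ ⨆ σ, L σ) : Alt L k := by
  have h : ∀ a, Alt L a → Alt L (k * a) := by
    refine Subgroup.iSup_induction L (C := fun k => ∀ a, Alt L a → Alt L (k * a)) hk ?_ ?_ ?_
    · intro σ x hx a ha
      exact ha.lmul hL hx
    · intro a ha
      rwa [one_mul]
    · intro x y hx hy a ha
      rw [mul_assoc]
      exact hx _ (hy _ ha)
  simpa using h 1 Alt.one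

/-- decomposition of nontrivial elements -/
theorem decomp (hL : SlotC L) {k : FreeGroup S} (hk : k ∈ ⨆ σ, L σ) (h1 : k ≠ 1) :
    ∃ σ, ∃ h ∈ L σ, h ≠ 1 ∧ ∃ k' ∈ ⨆ σ, L σ, NS σ k' ∧ k = h * k' := by
  cases alt_of_mem hL hk with
  | one => exact absurd rfl h1
  | cons σ h k hh hh1 hka hns => exact ⟨σ, h, hh, hh1, k, Alt.mem hka, hns, rfl⟩

/-- uniqueness -/
theorem uniq (hL : SlotC L) {σ : S} {h k h' k' : FreeGroup S} (hh : h ∈ L σ) 
    (hk : NS σ k) (hh' : h' ∈ L σ) (hk' : NS σ k')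
    (he : h * k = h' * k') : h = h' ∧ k = k' := by
  by_cases hx : h'⁻¹ * h = 1
  · have : h = h' := by
      rw [inv_mul_eq_one] at hx
      exact hx.symm
    subst this
    exact ⟨rfl, mul_left_cancel he⟩
  · exfalso
    obtain ⟨ε, h2⟩ := hL.fl_mul ((L σ).mul_mem ((L σ).inv_mem hh') hh) hx hk
    have : h'⁻¹ * h * k = k' := by
      rw [mul_assoc, he, inv_mul_cancel_left]
    rw [this] at h2
    exact hk' _ h2 rfl

/-- smaller slot family -/
theorem slot_of_mem (hL : SlotC L) {L' : S → Subgroup (FreeGroup S)} (hle : ∀ σ, L' σ ≤ L σ)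
    {σ : S} {h : FreeGroup S} (hh : h ∈ L σ) (hm : h ∈ ⨆ σ, L' σ) : h ∈ L' σ := by
  have hL' : SlotC L' := fun σ h hh h1 => hL σ h (hle σ hh) h1
  by_cases h1 : h = 1
  · rw [h1]; exact (L' σ).one_mem
  obtain ⟨τ, a, ha, ha1, k, hk, hns, he⟩ := decomp hL' hm h1
  obtain ⟨ε, h2⟩ := SlotC.fl_mul hL' ha ha1 hns
  obtain ⟨δ, h3⟩ := hL σ h hh h1
  rw [← he, h3] at h2
  have hst : σ = τ := congrArg Prod.fst (Option.some.inj h2)
  subst hst
  by_cases hk1 : k = 1
  · rw [he, hk1, mul_one]; exact ha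
  · exfalso
    have hkm : k ∈ L σ := by
      have : k = a⁻¹ * h := by rw [he, inv_mul_cancel_left]
      rw [this]
      exact (L σ).mul_mem ((L σ).inv_mem (hle σ ha)) hh
    obtain ⟨γ, h4⟩ := hL σ k hkm hk1
    exact hns _ h4 rfl

/-- nontrivial elements of a subgroup -/
def nt (H : Subgroup (FreeGroup S)) : Set (FreeGroup S) := {g | g ∈ H ∧ g ≠ 1}

theorem gf_nt [Finite S] (H : Subgroup (FreeGroup S)) :
    gf (H : Set (FreeGroup S)) = 1 + gf (nt H) := by
  rw [← gf_one (S := S)]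
  apply gf_union
  · intro g
    simp only [SetLike.mem_coe, Set.mem_singleton_iff, nt, Set.mem_ofPred_eq]
    constructor
    · intro h
      by_cases h1 : g = 1
      · exact Or.inl h1
      · exact Or.inr ⟨h, h1⟩
    · rintro (h | h)
      · rw [h]; exact H.one_mem
      · exact h.1
  · rintro g hg ⟨_, h⟩
    exact h hg

theorem slots_gf [Fintype S] (hL : SlotC L) (t : S → ℤ⟦X⟧)
    (ht : ∀ σ, t σ * (1 + gf (nt (L σ))) = gf (nt (L σ))) :
    gf ((⨆ σ, L σ : Subgroup (FreeGroup S)) : Set (FreeGroup S)) * (1 - ∑ σ, t σ) = 1 := by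
  set K := (⨆ σ, L σ : Subgroup (FreeGroup S)) with hK
  let Tt : S → Set (FreeGroup S) := fun σ => {k | k ∈ K ∧ ∃ ε, fl k = some (σ, ε)}
  let Nn : S → Set (FreeGroup S) := fun σ => {k | k ∈ K ∧ NS σ k}
  have h1 : ∀ σ, gf (K : Set (FreeGroup S)) = gf (Tt σ) + gf (Nn σ) := by
    intro σ
    apply gf_union
    · intro g
      simp only [SetLike.mem_coe, Tt, Nn, Set.mem_ofPred_eq]
      constructor
      · intro hg
        by_cases hx : ∃ ε, fl g = some (σ, ε)
        · exact Or.inl ⟨hg, hx⟩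
        · refine Or.inr ⟨hg, ?_⟩
          rintro ⟨y, ε⟩ hy rfl
          exact hx ⟨ε, hy⟩
      · rintro (h | h)
        · exact h.1
        · exact h.1
    · rintro g ⟨_, ε, h⟩ ⟨_, h'⟩
      exact h' _ h rfl
  have h2 : gf (K : Set (FreeGroup S)) = 1 + ∑ σ, gf (Tt σ) := by
    rw [gf_nt]
    congr 1
    apply gf_iUnion
    · intro g
      simp only [nt, Tt, Set.mem_ofPred_eq]
      constructor
      · rintro ⟨hg, hg1⟩
        have : fl g ≠ none := fun h => hg1 (fl_eq_none.1 h)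
        obtain ⟨⟨y, ε⟩, hy⟩ := Option.ne_none_iff_exists'.1 this
        exact ⟨y, hg, ε, hy⟩
      · rintro ⟨σ, hg, ε, he⟩
        refine ⟨hg, ?_⟩
        rintro rfl
        rw [fl_one] at he
        exact absurd he (by simp)
    · rintro σ τ g ⟨_, ε, h⟩ ⟨_, ε', h'⟩
      rw [h] at h'
      exact congrArg Prod.fst (Option.some.inj h')
  have h3 : ∀ σ, gf (Tt σ) = gf (nt (L σ)) * gf (Nn σ) := by
    intro σ
    apply gf_mul
    · rintro h ⟨hh, hh1⟩ k ⟨hk, hns⟩
      refine ⟨⟨K.mul_mem (Subgroup.mem_iSup_of_mem σ hh) hk, hL.fl_mul hh hh1 hns⟩, ?_⟩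
      exact norm_mul_of (hL.nc hh hh1 hns)
    · rintro h ⟨hh, hh1⟩ k ⟨hk, hns⟩ h' ⟨hh', hh1'⟩ k' ⟨hk', hns'⟩ he
      exact uniq hL hh hns hh' hns' he
    · rintro g ⟨hg, ε, he⟩
      have hg1 : g ≠ 1 := by
        rintro rfl
        rw [fl_one] at he
        exact absurd he (by simp)
      obtain ⟨τ, a, ha, ha1, k, hk, hns, hek⟩ := decomp hL hg hg1
      obtain ⟨ε', h2⟩ := hL.fl_mul ha ha1 hns
      rw [← hek, he] at h2
      have hst : σ = τ := congrArg Prod.fst (Option.some.inj h2)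
      subst hst
      exact ⟨a, ⟨ha, ha1⟩, k, ⟨hk, hns⟩, hek.symm⟩
  have h4 : ∀ σ, gf (K : Set (FreeGroup S)) * t σ = gf (Tt σ) := by
    intro σ
    rw [h3, h1 σ, h3]
    linear_combination gf (Nn σ) * ht σ
  rw [mul_sub, mul_one, Finset.mul_sum, Finset.sum_congr rfl (fun σ _ => h4 σ), h2]
  ring

end H749.Cog
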