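import Pool.Agent.H749R4.Slots

/-! Subgroups of free groups given by trees of loops. -/

namespace H749.Cog

open FreeGroup PowerSeries

variable {I J : Type*} [DecidableEq I] [DecidableEq J]

theorem fl_of_pow {S : Type*} [DecidableEq S] (a : S) {n : ℕ} (hn : 0 < n) :
    fl (FreeGroup.of a ^ n) = some (a, true) := by
  unfold fl
  rw [toWord_of_pow]
  obtain ⟨m, rfl⟩ : ∃ m, n = m + 1 := ⟨n - 1, by omega⟩
  rw [List.replicate_succ]
  rfl

theorem fl_of_pow_inv {S : Type*} [DecidableEq S] (a : S) {n : ℕ} (hn : 0 < n) :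
    fl (FreeGroup.of a ^ n)⁻¹ = some (a, false) := by
  unfold fl
  rw [toWord_inv, toWord_of_pow, invRev, List.map_replicate, List.reverse_replicate]
  obtain ⟨m, rfl⟩ : ∃ m, n = m + 1 := ⟨n - 1, by omega⟩
  rw [List.replicate_succ]
  rfl

/-- slot family -/
def slot (H : I → Subgroup (FreeGroup (I ⊕ J))) (ℓ : J → ℕ) : I ⊕ J → Subgroup (FreeGroup (I ⊕ J))
  | Sum.inl i => (H i).map (MulAut.conj (FreeGroup.of (Sum.inl i))).toMonoidHom
  | Sum.inr j => Subgroup.zpowers (FreeGroup.of (Sum.inr j) ^ ℓ j)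

theorem slot_mono {H H' : I → Subgroup (FreeGroup (I ⊕ J))} (h : ∀ i, H i ≤ H' i) (ℓ : J → ℕ)
    (σ : I ⊕ J) : slot H ℓ σ ≤ slot H' ℓ σ := by
  cases σ with
  | inl i => exact Subgroup.map_mono (h i)
  | inr j => exact le_refl _

/-- no element starts with an inverse edge letter -/
def Good (H : Subgroup (FreeGroup (I ⊕ J))) : Prop :=
  ∀ g ∈ H, ∀ i : I, fl g ≠ some (Sum.inl i, false)

theorem conj_word {g : FreeGroup (I ⊕ J)} (i : I) (h1 : g ≠ 1)
    (h2 : ∀ i : I, fl g ≠ some (Sum.inl i, false)) (h3 : ∀ i : I, fl g⁻¹ ≠ some (Sum.inl i, false)) :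
    (FreeGroup.of (Sum.inl i) * g * (FreeGroup.of (Sum.inl i))⁻¹).toWord
      = (Sum.inl i, true) :: (g.toWord ++ [(Sum.inl i, false)]) := by
  have e1 : (FreeGroup.of (Sum.inl i) * g).toWord = [(Sum.inl i, true)] ++ g.toWord := by
    rw [toWord_mul_of, toWord_of]
    intro x hx y hy hxy
    have : x = (Sum.inl i, true) := by
      rw [ll, toWord_of] at hx
      simpa using hx.symm
    subst this
    rcases y with ⟨y1, y2⟩
    dsimp only at hxy ⊢
    subst hxy
    cases y2
    · exact absurd hy (h2 i)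
    · rfl
  have e2 : (FreeGroup.of (Sum.inl i : I ⊕ J))⁻¹.toWord = [(Sum.inl i, false)] := by
    rw [toWord_inv, toWord_of]
    rfl
  rw [toWord_mul_of, e1, e2]
  · simp
  intro x hx y hy hxy
  have : y = (Sum.inl i, false) := by
    rw [fl, e2] at hy
    simpa using hy.symm
  subst this
  rcases x with ⟨x1, x2⟩
  dsimp only at hxy ⊢
  subst hxy
  cases x2
  · rfl
  · exfalso
    rw [ll, e1, List.getLast?_append_of_ne_nil _ (by rwa [Ne, toWord_eq_nil_iff])] at hx
    have hx' : ll g = some (Sum.inl i, true) := hx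
    rw [ll_eq_inv] at hx'
    cases hf : fl g⁻¹ with
    | none => rw [hf] at hx'; exact absurd hx' (by simp)
    | some z =>
      rw [hf] at hx'
      rcases z with ⟨z1, z2⟩
      have := Option.some.inj hx'
      have hz1 : z1 = Sum.inl i := congrArg Prod.fst this
      have hz2 : (!z2) = true := congrArg Prod.snd this
      have hz2' : z2 = false := by simpa using hz2
      subst hz1 hz2'
      exact h3 i hf

theorem conj_norm {g : FreeGroup (I ⊕ J)} (i : I) (h1 : g ≠ 1)
    (h2 : ∀ i : I, fl g ≠ some (Sum.inl i, false)) (h3 : ∀ i : I, fl g⁻¹ ≠ some (Sum.inl i, false)) :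
    (FreeGroup.of (Sum.inl i) * g * (FreeGroup.of (Sum.inl i))⁻¹).norm = g.norm + 2 := by
  unfold FreeGroup.norm
  rw [conj_word i h1 h2 h3]
  simp

theorem slot_fl {H : I → Subgroup (FreeGroup (I ⊕ J))} (hH : ∀ i, Good (H i)) (ℓ : J → ℕ)
    (σ : I ⊕ J) (h : FreeGroup (I ⊕ J)) (hh : h ∈ slot H ℓ σ) (h1 : h ≠ 1) :
    (∃ ε, fl h = some (σ, ε)) ∧ ∀ i : I, fl h ≠ some (Sum.inl i, false) := by
  cases σ with
  | inl i =>
    obtain ⟨g, hg, rfl⟩ := hh
    have e : (MulAut.conj (FreeGroup.of (Sum.inl i))).toMonoidHom g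
        = FreeGroup.of (Sum.inl i) * g * (FreeGroup.of (Sum.inl i))⁻¹ := rfl
    rw [e] at h1 ⊢
    have hg1 : g ≠ 1 := by
      rintro rfl
      exact h1 (by group)
    have hw : fl (FreeGroup.of (Sum.inl i) * g * (FreeGroup.of (Sum.inl i))⁻¹)
        = some (Sum.inl i, true) := by
      rw [fl, conj_word i hg1 (hH i g hg) (hH i g⁻¹ ((H i).inv_mem hg))]
      rfl
    rw [hw]
    refine ⟨⟨true, rfl⟩, ?_⟩
    intro i' h
    have := congrArg Prod.snd (Option.some.inj h)
    exact absurd this (by simp)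
  | inr j =>
    obtain ⟨n, hn⟩ := Subgroup.mem_zpowers_iff.1 hh
    have key : ∃ ε, fl h = some (Sum.inr j, ε) := by
      rcases Int.eq_nat_or_neg n with ⟨m, hm | hm⟩
      · subst hm
        rw [zpow_natCast, ← pow_mul] at hn
        have : 0 < ℓ j * m := by
          rcases Nat.eq_zero_or_pos (ℓ j * m) with h0 | h0
          · rw [h0, pow_zero] at hn
            exact absurd hn.symm h1
          · exact h0
        exact ⟨true, by rw [← hn]; exact fl_of_pow _ this⟩
      · subst hm
        rw [zpow_neg, zpow_natCast, ← pow_mul] at hn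
        have : 0 < ℓ j * m := by
          rcases Nat.eq_zero_or_pos (ℓ j * m) with h0 | h0
          · rw [h0, pow_zero, inv_one] at hn
            exact absurd hn.symm h1
          · exact h0
        exact ⟨false, by rw [← hn]; exact fl_of_pow_inv _ this⟩
    refine ⟨key, ?_⟩
    obtain ⟨ε, he⟩ := key
    rw [he]
    intro i h
    have := congrArg Prod.fst (Option.some.inj h)
    exact absurd this (by simp)

theorem slotC_slot {H : I → Subgroup (FreeGroup (I ⊕ J))} (hH : ∀ i, Good (H i)) (ℓ : J → ℕ) :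
    SlotC (slot H ℓ) := fun σ h hh h1 => (slot_fl hH ℓ σ h hh h1).1

theorem good_iSup {H : I → Subgroup (FreeGroup (I ⊕ J))} (hH : ∀ i, Good (H i)) (ℓ : J → ℕ) :
    Good (⨆ σ, slot H ℓ σ) := by
  intro g hg i
  by_cases h1 : g = 1
  · rw [h1, fl_one]; simp
  · have hL := slotC_slot hH ℓ
    obtain ⟨σ, h, hh, hh1, k, hk, hns, rfl⟩ := decomp hL hg h1
    rw [fl_mul_of hh1 (hL.nc hh hh1 hns)]
    exact (slot_fl hH ℓ σ h hh hh1).2 i

variable {St : Type*} (step : St → I → St) (lp : St → J → ℕ)

/-- truncated subgroup -/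
def Kd : ℕ → St → Subgroup (FreeGroup (I ⊕ J))
  | 0, _ => ⊥
  | d + 1, s => ⨆ σ, slot (fun i => Kd d (step s i)) (lp s) σ

/-- the subgroup of a state -/
def KK (s : St) : Subgroup (FreeGroup (I ⊕ J)) := ⨆ d, Kd step lp d s

theorem Kd_good (d : ℕ) (s : St) : Good (Kd step lp d s) := by
  induction d generalizing s with
  | zero =>
    intro g hg i
    have : g = 1 := by simpa [Kd] using hg
    rw [this, fl_one]
    simp
  | succ d ih => exact good_iSup (fun i => ih (step s i)) (lp s)

theorem Kd_succ_le (d : ℕ) (s : St) : Kd step lp d s ≤ Kd step lp (d + 1) s := by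
  induction d generalizing s with
  | zero => exact bot_le
  | succ d ih => exact iSup_mono fun σ => slot_mono (fun i => ih (step s i)) (lp s) σ

theorem Kd_mono (s : St) : Monotone fun d => Kd step lp d s :=
  monotone_nat_of_le_succ fun d => Kd_succ_le step lp d s

theorem mem_KK {s : St} {g : FreeGroup (I ⊕ J)} : g ∈ KK step lp s ↔ ∃ d, g ∈ Kd step lp d s := by
  unfold KK
  rw [Subgroup.mem_iSup_of_directed]
  exact (Kd_mono step lp s).directed_le

theorem KK_good (s : St) : Good (KK step lp s) := by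
  intro g hg i
  obtain ⟨d, hd⟩ := (mem_KK step lp).1 hg
  exact Kd_good step lp d s g hd i

theorem KK_eq (s : St) : KK step lp s = ⨆ σ, slot (fun i => KK step lp (step s i)) (lp s) σ := by
  apply le_antisymm
  · apply iSup_le
    intro d
    cases d with
    | zero => exact bot_le
    | succ d =>
      exact iSup_mono fun σ => slot_mono
        (fun i => le_iSup (fun d => Kd step lp d (step s i)) d) (lp s) σ
  · apply iSup_le
    intro σ
    cases σ with
    | inl i =>
      show ((KK step lp (step s i)).map _) ≤ _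
      unfold KK
      rw [Subgroup.map_iSup]
      apply iSup_le
      intro d
      refine le_trans ?_ (le_iSup (fun d => Kd step lp d s) (d + 1))
      exact le_iSup (slot (fun i => Kd step lp d (step s i)) (lp s)) (Sum.inl i)
    | inr j =>
      refine le_trans ?_ (le_iSup (fun d => Kd step lp d s) 1)
      exact le_iSup (slot (fun i => Kd step lp 0 (step s i)) (lp s)) (Sum.inr j)

theorem KK_slotC (s : St) : SlotC (slot (fun i => KK step lp (step s i)) (lp s)) :=
  slotC_slot (fun i => KK_good step lp (step s i)) (lp s)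

/-- transport along a path -/
def gen (w : List I) (g : FreeGroup (I ⊕ J)) : FreeGroup (I ⊕ J) :=
  w.foldr (fun i g => FreeGroup.of (Sum.inl i) * g * (FreeGroup.of (Sum.inl i))⁻¹) g

/-- run along a path -/
def run (s : St) (w : List I) : St := w.foldl step s

theorem gen_mem (w : List I) (s : St) {g : FreeGroup (I ⊕ J)} (hg : g ∈ KK step lp (run step s w)) :
    gen w g ∈ KK step lp s := by
  induction w generalizing s with
  | nil => exact hg
  | cons i w ih =>
    have := ih (step s i) hg
    rw [KK_eq]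
    exact Subgroup.mem_iSup_of_mem (Sum.inl i) ⟨gen w g, this, rfl⟩

theorem gen_eq_one (w : List I) (s : St) {g : FreeGroup (I ⊕ J)}
    (hg : g ∈ KK step lp (run step s w)) (h : gen w g ∈ Kd step lp w.length s) : g = 1 := by
  induction w generalizing s with
  | nil => simpa [Kd, gen] using h
  | cons i w ih =>
    have h1 := gen_mem step lp w (step s i) hg
    apply ih (step s i) hg
    have h2 : gen (i :: w) g ∈ slot (fun i => KK step lp (step s i)) (lp s) (Sum.inl i) :=
      ⟨gen w g, h1, rfl⟩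
    have h3 := slot_of_mem (KK_slotC step lp s)
      (L' := slot (fun i => Kd step lp w.length (step s i)) (lp s))
      (fun σ => slot_mono (fun i => le_iSup (fun d => Kd step lp d (step s i)) _) (lp s) σ) h2 h
    obtain ⟨g', hg', he⟩ := h3
    have : g' = gen w g := (MulAut.conj (FreeGroup.of (Sum.inl i : I ⊕ J))).injective he
    rwa [← this]

theorem KK_not_fg (s : St) (h : ∀ d, ∃ w : List I, w.length = d ∧ ∃ j, 0 < lp (run step s w) j) :
    ¬ (KK step lp s).FG := by
  rintro ⟨T, hT⟩
  have h1 : ∀ t ∈ T, ∃ d, t ∈ Kd step lp d s := by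
    intro t ht
    apply (mem_KK step lp).1
    rw [← hT]
    exact Subgroup.subset_closure ht
  have h2 : ∃ D, ∀ t ∈ T, t ∈ Kd step lp D s := by
    clear hT
    classical
    induction T using Finset.induction_on with
    | empty => exact ⟨0, by simp⟩
    | insert a T ha ih =>
      obtain ⟨D, hD⟩ := ih (fun t ht => h1 t (Finset.mem_insert_of_mem ht))
      obtain ⟨d, hd⟩ := h1 a (Finset.mem_insert_self _ _)
      refine ⟨max D d, ?_⟩
      intro t ht
      rcases Finset.mem_insert.1 ht with rfl | ht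
      · exact Kd_mono step lp s (le_max_right D d) hd
      · exact Kd_mono step lp s (le_max_left D d) (hD t ht)
  obtain ⟨D, hD⟩ := h2
  have h3 : KK step lp s ≤ Kd step lp D s := by
    rw [← hT, Subgroup.closure_le]
    exact hD
  obtain ⟨w, hw, j, hj⟩ := h D
  have h4 : (FreeGroup.of (Sum.inr j) ^ lp (run step s w) j : FreeGroup (I ⊕ J))
      ∈ KK step lp (run step s w) := by
    rw [KK_eq]
    exact Subgroup.mem_iSup_of_mem (Sum.inr j) (Subgroup.mem_zpowers _)
  have h5 := gen_eq_one step lp w s h4 (by rw [hw]; exact h3 (gen_mem step lp w s h4))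
  have h6 := fl_of_pow (Sum.inr j : I ⊕ J) hj
  rw [h5, fl_one] at h6
  exact absurd h6 (by simp)

end H749.Cog
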